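import Pool.Agent.Helper138_LS.FinalPos

/-!
MP_5cdc53_co, Q1 for all pairs `(k, L)` with `k ≤ 19` or `k - max L ≤ 15`, except those obtained from
`(17, {0,1,2,3,5})`: complete answer. It contains the two smallest undecided pairs `(13, {0,1,3})` (no) and
`(11, {0,1,2,3,5})` (yes) named in the question.
-/

set_option autoImplicit false

open Finset

namespace Pool.Agent.Results.MP_5cdc53_co.AllSmall

open Pool.Agent.H480R2.LS Pool.Agent.Helper138_LS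

/-- every `n ≥ k` has a family of at least `c n ^ s` sets with `k` elements each of which any two distinct
members meet in a number of elements from `L`, for some constant `c > 0` -/
def Attained (k : ℕ) (L : Finset ℕ) (s : ℕ) : Prop :=
  ∃ c : ℝ, 0 < c ∧ ∀ n : ℕ, k ≤ n → ∃ F : Finset (Finset (Fin n)),
    (∀ A ∈ F, A.card = k) ∧ (∀ A ∈ F, ∀ B ∈ F, A ≠ B → (A ∩ B).card ∈ L) ∧ c * (n : ℝ) ^ s ≤ F.card

/-- for some `e > 0` and `C`, all such families have at most `C n ^ (s - e)` members -/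
def PowerSaving (k : ℕ) (L : Finset ℕ) (s : ℕ) : Prop :=
  ∃ e : ℝ, 0 < e ∧ ∃ C : ℝ, ∀ (n : ℕ) (F : Finset (Finset (Fin n))),
    (∀ A ∈ F, A.card = k) → (∀ A ∈ F, ∀ B ∈ F, A ≠ B → (A ∩ B).card ∈ L) →
      (F.card : ℝ) ≤ C * (n : ℝ) ^ ((s : ℝ) - e)

/-- the basic pairs: `(k, {0,…,s-1})` with `s ≤ k` and fourteen sporadic pairs -/
def Basic (k : ℕ) (L : Finset ℕ) : Prop :=
  (∃ s, s ≤ k ∧ L = Finset.range s) ∨
  (k = 7 ∧ L = {0, 1, 3}) ∨ (k = 8 ∧ L = {0, 1, 2, 4}) ∨ (k = 9 ∧ L = {0, 1, 3}) ∨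
  (k = 10 ∧ L = {0, 1, 2, 4}) ∨ (k = 11 ∧ L = {0, 1, 2, 3, 5}) ∨ (k = 12 ∧ L = {0, 1, 2, 3, 4, 6}) ∨
  (k = 13 ∧ L = {0, 1, 4}) ∨ (k = 15 ∧ L = {0, 1, 3}) ∨ (k = 15 ∧ L = {0, 1, 3, 7}) ∨
  (k = 16 ∧ L = {0, 1, 4}) ∨ (k = 16 ∧ L = {0, 1, 2, 4}) ∨ (k = 16 ∧ L = {0, 1, 2, 4, 8}) ∨
  (k = 17 ∧ L = {0, 1, 2, 5}) ∨ (k = 19 ∧ L = {0, 1, 3})

/-- `k = a + g k'` and `L = a + g L'` for a basic pair `(k', L')`, some `a ≥ 0` and `g ≥ 1` -/
def FromBasic (k : ℕ) (L : Finset ℕ) : Prop :=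
  ∃ (a g k' : ℕ) (L' : Finset ℕ), 1 ≤ g ∧ Basic k' L' ∧ k = a + g * k' ∧ L = L'.image fun i => a + g * i

/-- the excluded pairs: `k = a + 17 + j` and `L = a + {0,…,3+j,5+j}` with `a ≥ 0` and `0 ≤ j ≤ 7` -/
def Excluded (k : ℕ) (L : Finset ℕ) : Prop :=
  ∃ (a j : ℕ), j ≤ 7 ∧ k = a + (17 + j) ∧
    L = (insert (5 + j) (Finset.range (4 + j))).image fun i => a + i

/-- **Main result.** Let `L` be a nonempty set of nonnegative integers smaller than `k` such that `k ≤ 19` or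
some element of `L` is at least `k - 15`, and suppose that the pair is not one of the excluded ones. If the
pair comes from a basic pair, the growth is of order `n ^ s` with `s = |L|`; otherwise it is at most
`C n ^ (s - e)` with `e > 0`. -/
theorem result (k : ℕ) (L : Finset ℕ) (hne : L.Nonempty) (hL : ∀ l ∈ L, l < k)
    (hk : k ≤ 19 ∨ ∃ l ∈ L, k ≤ l + 15) (hX : ¬ Excluded k L) :
    (FromBasic k L → Attained k L L.card) ∧ (¬ FromBasic k L → PowerSaving k L L.card) := by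
  have hL' : L ⊆ Finset.range k := fun l hl => Finset.mem_range.mpr (hL l hl)
  have hk1 : 1 ≤ k := by
    obtain ⟨l, hl⟩ := hne
    have := hL l hl
    omega
  exact ⟨fun h => Yes.att hL' h hne, fun h => RB.sys hk1 hL' (neg_all k L hk hX hne hL' h)⟩

end Pool.Agent.Results.MP_5cdc53_co.AllSmall
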