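import Pool.Agent.Helper138_LS.EF

/-!
MP_5cdc53_co, Q1: the pairs `(k, L)` with `m(n, k, L) ≥ n ^ (s - o(1))` are exactly those for which some perfect
matroid design on `k` points with flats of sizes `l₁, …, l_s` is almost entropic; for all other pairs
`m(n, k, L) ≤ C n ^ (s - e)` with `e > 0`. If such a design is represented by an almost affine code, then
`m(n, k, L) ≥ c n ^ s`.
-/

set_option autoImplicit false

open Finset

namespace Pool.Agent.Results.MP_5cdc53_co.EntropicDesigns

open Pool.Agent.H480R2.LS Pool.Agent.Helper138_LS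

/-- `F` is an `(n,k,L)`-system -/
def IsSystem (n k : ℕ) (L : Finset ℕ) (F : Finset (Finset (Fin n))) : Prop :=
  (∀ A ∈ F, A.card = k) ∧ ∀ A ∈ F, ∀ B ∈ F, A ≠ B → (A ∩ B).card ∈ L

/-- for some `c > 0`, every `n ≥ k` has an `(n,k,L)`-system with at least `c n ^ b` members -/
def AtLeast (k : ℕ) (L : Finset ℕ) (b : ℝ) : Prop :=
  ∃ c : ℝ, 0 < c ∧ ∀ n : ℕ, k ≤ n → ∃ F : Finset (Finset (Fin n)), IsSystem n k L F ∧ c * (n : ℝ) ^ b ≤ F.card

/-- for some `C`, every `(n,k,L)`-system has at most `C n ^ b` members -/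
def AtMost (k : ℕ) (L : Finset ℕ) (b : ℝ) : Prop :=
  ∃ C : ℝ, ∀ (n : ℕ) (F : Finset (Finset (Fin n))), IsSystem n k L F → (F.card : ℝ) ≤ C * (n : ℝ) ^ b

/-- `r` is the rank function of a matroid on `k` points of rank `s = |L|` in which every flat of rank `i < s` has
exactly `l_{i+1}` points (its number of points is in `L` and larger than exactly `i` elements of `L`): a perfect
matroid design with the parameters `(k, L)` -/
structure IsDesign (k : ℕ) (L : Finset ℕ) (r : Finset (Fin k) → ℕ) : Prop where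
  le_card : ∀ A, r A ≤ A.card
  mono : ∀ A B, A ⊆ B → r A ≤ r B
  submod : ∀ A B, r (A ∪ B) + r (A ∩ B) ≤ r A + r B
  rank : r Finset.univ = L.card
  flat : ∀ A, (∀ x, x ∉ A → r A < r (insert x A)) → r A < L.card →
    A.card ∈ L ∧ (L.filter fun l => l < A.card).card = r A

/-- the Shannon entropy of the restriction to the set `A` of coordinates of the random tuple that is equal to `X w`
with probability `p w`: the sum of `- P log P` over the values of the restriction, `P` being their probabilities -/
noncomputable def entropy {k N : ℕ} (p : Fin N → ℝ) (X : Fin N → Fin k → ℕ) (A : Finset (Fin k)) : ℝ :=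
  ∑ v ∈ Finset.univ.image (fun w => fun i : A => X w i),
    Real.negMulLog (∑ w ∈ Finset.univ.filter (fun w => (fun i : A => X w i) = v), p w)

/-- `r` is almost entropic: up to scaling, it is a limit of entropy functions of random `k`-tuples -/
def AlmostEntropic {k : ℕ} (r : Finset (Fin k) → ℕ) : Prop :=
  ∀ ε : ℝ, 0 < ε → ∃ t : ℝ, 0 < t ∧ ∃ (N : ℕ) (p : Fin N → ℝ) (X : Fin N → Fin k → ℕ),
    (∀ w, 0 ≤ p w) ∧ ∑ w, p w = 1 ∧ ∀ A, |entropy p X A - t * r A| ≤ ε * t

/-- `r` is represented by an almost affine code: for some `q ≥ 2` there is a code `D` of length `k` over an alphabet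
with `q` letters whose restriction to each set `A` of coordinates has exactly `q ^ r(A)` words -/
def AlmostAffine {k : ℕ} (r : Finset (Fin k) → ℕ) : Prop :=
  ∃ (q : ℕ) (D : Finset (Fin k → Fin q)), 2 ≤ q ∧ ∀ A : Finset (Fin k), (D.image fun f => fun i : A => f i).card = q ^ r A

theorem IsDesign.pmd {k : ℕ} {L : Finset ℕ} {r : Finset (Fin k) → ℕ} (h : IsDesign k L r) : PMD k L r :=
  ⟨h.le_card, h.mono, h.submod, h.rank, h.flat⟩

theorem PMD.isDesign {k : ℕ} {L : Finset ℕ} {r : Finset (Fin k) → ℕ} (h : PMD k L r) : IsDesign k L r :=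
  ⟨h.le_card, h.mono, h.submod, h.rank, h.flat⟩

theorem atLeast_of_mem {k : ℕ} {L : Finset ℕ} (hk : 1 ≤ k) {x b : ℝ} (hx : x ∈ ES k L) (hb : b ≤ x) :
    AtLeast k L b := by
  obtain ⟨c, hc, h⟩ := le_mm_of_mem hk hx hb
  refine ⟨c, hc, fun n hn => ?_⟩
  obtain ⟨F, hF1, hF2⟩ := mm_attained n k L
  exact ⟨F, hF2, by rw [hF1]; exact h n hn⟩

theorem affine_mem {k : ℕ} {L : Finset ℕ} {r : Finset (Fin k) → ℕ} (hr : PMD k L r) (h : AlmostAffine r) :
    (L.card : ℝ) ∈ ES k L := by
  classical
  obtain ⟨q, D, hq, hD⟩ := h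
  have hDc : D.card = q ^ L.card := by
    rw [← hr.rank, ← hD Finset.univ]
    symm
    apply Finset.card_image_of_injective
    intro f g hfg
    funext i
    exact congrFun hfg ⟨i, Finset.mem_univ i⟩
  have hlog : 0 < Real.log q := Real.log_pos (by exact_mod_cast (show 1 < q by omega))
  refine ⟨q, D, FT r, hq, hr.ic, hr.card_mem, ?_, ?_, ?_⟩
  · intro f hf g hg hfg
    rw [FT, Finset.mem_filter]
    refine ⟨Finset.mem_univ _, agr_ne_univ hfg, fun x hx => ?_⟩
    by_contra hcon
    set A := agr f g with hA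
    have h1 : r (insert x A) = r A := by
      have := hr.mono _ _ (Finset.subset_insert x A)
      omega
    -- the restriction to `A` determines the restriction to `A` and `x`
    obtain ⟨D', hD'⟩ : ∃ D' : Finset (↥(insert x A) → Fin q),
        D' = D.image fun (f : Fin k → Fin q) (i : ↥(insert x A)) => f i := ⟨_, rfl⟩
    have h2 : (D.image fun (f : Fin k → Fin q) (i : A) => f i) =
        D'.image fun v (i : A) => v ⟨i, Finset.mem_insert_of_mem i.2⟩ := by
      rw [hD', Finset.image_image]
      rfl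
    have h3 : Set.InjOn (fun (v : ↥(insert x A) → Fin q) (i : A) =>
        v ⟨i, Finset.mem_insert_of_mem i.2⟩) (D' : Set (↥(insert x A) → Fin q)) := by
      apply Finset.injOn_of_card_image_eq
      rw [← h2, hD, hD', hD, h1]
    have h4 := h3 (x₁ := fun i => f i) (x₂ := fun i => g i)
      (by rw [hD']; exact Finset.mem_coe.mpr (Finset.mem_image_of_mem _ hf))
      (by rw [hD']; exact Finset.mem_coe.mpr (Finset.mem_image_of_mem _ hg)) (by
        funext i
        exact mem_agr.mp i.2)
    have h5 := congrFun h4 ⟨x, Finset.mem_insert_self _ _⟩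
    exact hx (mem_agr.mpr h5)
  · rw [hDc]
    exact Nat.one_le_pow _ _ (by omega)
  · rw [hDc, Nat.cast_pow, Real.log_pow]
    field_simp

/-- **Main result.** Let `k ≥ 1` and let `L` be a set of `s ≥ 1` integers in `[0, k)`. If some perfect matroid design
with the parameters `(k, L)` is represented by an almost affine code, the growth is of order `n ^ s`. If some such
design is almost entropic, it is at least `c n ^ (s - e)` for every `e > 0`; otherwise it is at most
`C n ^ (s - e)` for some `e > 0`. -/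
theorem result (k : ℕ) (L : Finset ℕ) (hne : L.Nonempty) (hL : L ⊆ Finset.range k) :
    ((∃ r, IsDesign k L r ∧ AlmostAffine r) → AtLeast k L L.card) ∧
    ((∃ r, IsDesign k L r ∧ AlmostEntropic r) → ∀ e : ℝ, 0 < e → AtLeast k L (L.card - e)) ∧
    ((¬ ∃ r, IsDesign k L r ∧ AlmostEntropic r) → ∃ e : ℝ, 0 < e ∧ AtMost k L (L.card - e)) := by
  have hk : 1 ≤ k := by
    obtain ⟨l, hl⟩ := hne
    have := Finset.mem_range.mp (hL hl)
    omega
  refine ⟨?_, ?_, ?_⟩
  · rintro ⟨r, hr, hA⟩
    exact atLeast_of_mem hk (affine_mem hr.pmd hA) le_rfl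
  · rintro ⟨r, hr, hA⟩ e he
    obtain ⟨x, hx, hxe⟩ := ent_to_sys hk hne hr.pmd hA (lt_min he one_pos) (min_le_right e 1)
    have := min_le_left e 1
    exact atLeast_of_mem hk hx (by linarith)
  · intro h
    have h1 : expo k L < L.card := by
      by_contra hcon
      push Not at hcon
      obtain ⟨r, hr, hA⟩ := sys_to_ent hL hne hcon
      exact h ⟨r, PMD.isDesign hr, hA⟩
    refine ⟨L.card - expo k L, by linarith, (KK k L : ℝ), fun n F hF => ?_⟩
    rcases Nat.eq_zero_or_pos n with rfl | hn
    · have h2 : F = ∅ := by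
        rw [Finset.eq_empty_iff_forall_notMem]
        intro A hA
        have h3 := hF.1 A hA
        have h4 := Finset.card_le_univ A
        rw [Fintype.card_fin] at h4
        omega
      rw [h2, Finset.card_empty, Nat.cast_zero]
      exact mul_nonneg (Nat.cast_nonneg _) (Real.rpow_nonneg le_rfl _)
    · have h2 : F.card ≤ mm n k L := le_mm hF
      have h3 := mm_le (n := n) hk hL hn
      rw [sub_sub_cancel]
      calc (F.card : ℝ) ≤ mm n k L := by exact_mod_cast h2
        _ ≤ _ := h3

end Pool.Agent.Results.MP_5cdc53_co.EntropicDesigns
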