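import Pool.Agent.Helper138_LS.LV
import Pool.Agent.Helper138_LS.PosTr

/-!
MP_5cdc53_co, Q1 for all pairs `(k, L)` for which the last three steps of `l₁ < l₂ < … < l_s < k`, or the three
steps before the last one, are `g`, `g m` and `g m²` with `m ≥ 2`: the answer is yes if and only if `m` is a prime
power and `(k, L)` comes from a projective or an affine space over the field with `m` elements, possibly
truncated.
-/

set_option autoImplicit false

open Finset

namespace Pool.Agent.Results.MP_5cdc53_co.LocallyProjective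

open Pool.Agent.H480R2.LS Pool.Agent.Helper138_LS

/-- every `n ≥ k` has a family of at least `c n ^ s` sets with `k` elements each of which any two distinct
members meet in a number of elements from `L`, for some constant `c > 0` -/
def Attained (k : ℕ) (L : Finset ℕ) (s : ℕ) : Prop :=
  ∃ c : ℝ, 0 < c ∧ ∀ n : ℕ, k ≤ n → ∃ F : Finset (Finset (Fin n)),
    (∀ A ∈ F, A.card = k) ∧ (∀ A ∈ F, ∀ B ∈ F, A ≠ B → (A ∩ B).card ∈ L) ∧ c * (n : ℝ) ^ s ≤ F.card

/-- for some `e > 0` and `C`, all such families have at most `C n ^ (s - e)` members -/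
def PowerSaving (k : ℕ) (L : Finset ℕ) (s : ℕ) : Prop :=
  ∃ e : ℝ, 0 < e ∧ ∃ C : ℝ, ∀ (n : ℕ) (F : Finset (Finset (Fin n))),
    (∀ A ∈ F, A.card = k) → (∀ A ∈ F, ∀ B ∈ F, A ≠ B → (A ∩ B).card ∈ L) →
      (F.card : ℝ) ≤ C * (n : ℝ) ^ ((s : ℝ) - e)

/-- the three largest elements of `L` are `x < x + g < x + g (m + 1)` and `k = x + g (m² + m + 1)`: the last three
steps of `l₁ < … < l_s < k` are `g`, `g m`, `g m²` -/
def LastSteps (m k : ℕ) (L : Finset ℕ) : Prop :=
  ∃ x g, 1 ≤ g ∧ x ∈ L ∧ x + g ∈ L ∧ x + g * (m + 1) ∈ L ∧ k = x + g * (m ^ 2 + m + 1) ∧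
    ∀ i ∈ L, i < x ∨ i = x ∨ i = x + g ∨ i = x + g * (m + 1)

/-- the three steps of `l₁ < … < l_s < k` before the last one are `g`, `g m`, `g m²` -/
def InnerSteps (m k : ℕ) (L : Finset ℕ) : Prop :=
  ∃ l ∈ L, (∀ i ∈ L, i ≤ l) ∧ l < k ∧ LastSteps m l (L.erase l)

/-- the number `1 + m + … + m ^ (i - 1)` of points of a projective space of rank `i` over a field with `m`
elements -/
def points (m i : ℕ) : ℕ := ∑ j ∈ Finset.range i, m ^ j

/-- `k = a + h k'` and `L = a + h L'` for some `a ≥ 0`, `h ≥ 1`, where `k'` is the number of points of a projective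
space of rank `d` and `L'` is the set of the numbers of points of its subspaces of rank less than `s`, for some
`s ≤ d` -/
def FromPG (m k : ℕ) (L : Finset ℕ) : Prop :=
  ∃ a h s d, 1 ≤ h ∧ s ≤ d ∧ k = a + h * points m d ∧ L = (Finset.range s).image fun i => a + h * points m i

/-- the same for affine spaces: dimension `d`, subspaces of dimension less than `s` including the empty one -/
def FromAG (m k : ℕ) (L : Finset ℕ) : Prop :=
  ∃ a h s d, 1 ≤ h ∧ s ≤ d ∧ k = a + h * m ^ d ∧ L = insert a ((Finset.range s).image fun i => a + h * m ^ i)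

theorem points_eq (m i : ℕ) : points m i = pgp m i := rfl

theorem fromPG_att {m k : ℕ} {L : Finset ℕ} (hm : IsPrimePow m) (hne : L.Nonempty) (h : FromPG m k L) :
    Attained k L L.card := by
  obtain ⟨a, h, s, d, hh, hsd, rfl, rfl⟩ := h
  have hm2 := hm.two_le
  have hinj : Function.Injective fun i => a + h * points m i := by
    intro i j hij
    have h1 : a + h * points m i = a + h * points m j := hij
    have h2 : points m i = points m j := Nat.eq_of_mul_eq_mul_left (show 0 < h by omega) (by omega)
    rcases Nat.lt_trichotomy i j with h3 | h3 | h3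
    · have h4 := pgp_lt (m := m) (by omega) h3
      rw [← points_eq, ← points_eq] at h4
      omega
    · exact h3
    · have h4 := pgp_lt (m := m) (by omega) h3
      rw [← points_eq, ← points_eq] at h4
      omega
  have hs : 1 ≤ s := by
    obtain ⟨i, hi⟩ := hne
    rw [Finset.mem_image] at hi
    obtain ⟨j, hj, _⟩ := hi
    have := Finset.mem_range.mp hj
    omega
  rw [Finset.card_image_of_injective _ hinj, Finset.card_range]
  have h0 : 1 ≤ pgp m d := by
    have := pgp_lt (m := m) (by omega) (show 0 < d by omega)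
    rw [pgp_zero] at this
    exact this
  have h1 := (pgTr hm hs hsd).scale a h hh h0
  rw [Finset.image_image] at h1
  exact h1

theorem fromAG_att {m k : ℕ} {L : Finset ℕ} (hm : IsPrimePow m) (hd : 2 ≤ L.card) (h : FromAG m k L) :
    Attained k L L.card := by
  obtain ⟨a, h, s, d, hh, hsd, rfl, rfl⟩ := h
  have hm2 := hm.two_le
  have hs1 : 1 ≤ s := by
    by_contra hcon
    have : s = 0 := by omega
    subst this
    simp at hd
  have hinj : Function.Injective fun i => a + h * m ^ i := by
    intro i j hij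
    have h1 : a + h * m ^ i = a + h * m ^ j := hij
    have h2 : m ^ i = m ^ j := Nat.eq_of_mul_eq_mul_left (show 0 < h by omega) (by omega)
    exact Nat.pow_right_injective hm2 h2
  have hni : a ∉ (Finset.range s).image fun i => a + h * m ^ i := by
    rw [Finset.mem_image]
    rintro ⟨i, _, hi⟩
    have : 0 < h * m ^ i := by positivity
    omega
  rw [Finset.card_insert_of_notMem hni, Finset.card_image_of_injective _ hinj, Finset.card_range]
  have h1 := (agTr hm (show 1 ≤ d by omega) hsd).scale a h hh (Nat.one_le_pow _ _ (by omega))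
  rw [Finset.image_insert, Finset.image_image, mul_zero, add_zero] at h1
  exact h1

theorem LastSteps.card {m k : ℕ} {L : Finset ℕ} (h : LastSteps m k L) : 2 ≤ L.card := by
  obtain ⟨x, g, hg, h1, h2, _⟩ := h
  exact Finset.one_lt_card.mpr ⟨x, h1, x + g, h2, by omega⟩

/-- **Main result.** Let `m ≥ 2`, let the last three steps of `l₁ < … < l_s < k`, or the three steps before the last
one, be `g`, `g m`, `g m²`. If `m` is a prime power and `(k, L)` comes from a projective or an affine space over
the field with `m` elements, the growth is of order `n ^ s`; otherwise it is at most `C n ^ (s - e)` with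
`e > 0`. -/
theorem result (m k : ℕ) (L : Finset ℕ) (hm : 2 ≤ m) (h : LastSteps m k L ∨ InnerSteps m k L) :
    (IsPrimePow m ∧ (FromPG m k L ∨ FromAG m k L) → Attained k L L.card) ∧
    (¬ (IsPrimePow m ∧ (FromPG m k L ∨ FromAG m k L)) → PowerSaving k L L.card) := by
  have hcard : 2 ≤ L.card := by
    rcases h with h | ⟨l, hl, hmax, hlk, h⟩
    · exact h.card
    · exact h.card.trans (Finset.card_le_card (Finset.erase_subset _ _))
  constructor
  · rintro ⟨hpp, hG | hG⟩
    · exact fromPG_att hpp (Finset.card_pos.mp (by omega)) hG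
    · exact fromAG_att hpp hcard hG
  · intro hn
    rcases h with h | ⟨l, hl, hmax, hlk, h⟩
    · have hT : TopP m k L := h
      have hL := hT.sub hm
      have hk : 1 ≤ k := by
        obtain ⟨x, g, hg, h1, _⟩ := h
        have := Finset.mem_range.mp (hL h1)
        omega
      have h1 : ¬ (IsPrimePow m ∧ Geo m k L) := by
        rintro ⟨hpp, a, h, s, hh, ⟨e1, e2⟩ | ⟨e1, e2⟩⟩
        · exact hn ⟨hpp, Or.inl ⟨a, h, s, s, hh, le_refl _, e1, e2⟩⟩
        · exact hn ⟨hpp, Or.inr ⟨a, h, s, s, hh, le_refl _, e1, e2⟩⟩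
      exact RB.sys hk hL (topP_neg hm k L hT h1)
    · have hL : L ⊆ Finset.range k := by
        intro i hi
        rw [Finset.mem_range]
        exact lt_of_le_of_lt (hmax i hi) hlk
      apply RB.sys (by omega) hL
      apply inner_neg hm hl hmax hlk h
      rintro ⟨hpp, a, h, s, d, hh, hsd, ⟨e1, e2⟩ | ⟨e1, e2⟩⟩
      · exact hn ⟨hpp, Or.inl ⟨a, h, s, d, hh, hsd, e1, e2⟩⟩
      · exact hn ⟨hpp, Or.inr ⟨a, h, s, d, hh, hsd, e1, e2⟩⟩

end Pool.Agent.Results.MP_5cdc53_co.LocallyProjective
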