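import Pool.Agent.Helper138_LS.LU

/-!
MP_5cdc53_co, Q1 for all pairs `(k, L)` for which the last three steps of `l₁ < l₂ < … < l_s < k` are `g`,
`g (l - 1)` and `g (K - l)` with `l ≥ 3` and `K` at most about `l² + l ^ (3/2)` (at most `2 l² - 2 l` if `l` is a
prime power), `K ≠ l² - l + 1`: the answer is yes if and only if `(k, L)` comes from an affine plane of prime
power order, extended at most once, or from the affine plane of order three, extended at most three times. (The
case `K = l² - l + 1` is treated in `LocallyProjective`.)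
-/

set_option autoImplicit false

open Finset

namespace Pool.Agent.Results.MP_5cdc53_co.NearAffine

open Pool.Agent.H480R2.LS Pool.Agent.Helper138_LS

/-- every `n ≥ k` has a family of at least `c n ^ s` sets with `k` elements each of which any two distinct
members meet in a number of elements from `L`, for some constant `c > 0` -/
def Attained (k : ℕ) (L : Finset ℕ) (s : ℕ) : Prop :=
  ∃ c : ℝ, 0 < c ∧ ∀ n : ℕ, k ≤ n → ∃ F : Finset (Finset (Fin n)),
    (∀ A ∈ F, A.card = k) ∧ (∀ A ∈ F, ∀ B ∈ F, A ≠ B → (A ∩ B).card ∈ L) ∧ c * (n : ℝ) ^ s ≤ F.card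

/-- for some `e > 0` and `C`, all such families have at most `C n ^ (s - e)` members -/
def PowerSaving (k : ℕ) (L : Finset ℕ) (s : ℕ) : Prop :=
  ∃ e : ℝ, 0 < e ∧ ∃ C : ℝ, ∀ (n : ℕ) (F : Finset (Finset (Fin n))),
    (∀ A ∈ F, A.card = k) → (∀ A ∈ F, ∀ B ∈ F, A ≠ B → (A ∩ B).card ∈ L) →
      (F.card : ℝ) ≤ C * (n : ℝ) ^ ((s : ℝ) - e)

/-- the three largest elements of `L` are `x < x + g < x + g l` and `k = x + g K`: the last three steps of
`l₁ < … < l_s < k` are `g`, `g (l - 1)`, `g (K - l)` -/
def LastSteps (l K k : ℕ) (L : Finset ℕ) : Prop :=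
  ∃ x g, 1 ≤ g ∧ x ∈ L ∧ x + g ∈ L ∧ x + g * l ∈ L ∧ k = x + g * K ∧
    ∀ i ∈ L, i < x ∨ i = x ∨ i = x + g ∨ i = x + g * l

/-- the region: `K` is smaller than `l² + 2 l - 2`, or at most `l² - l + l ^ (3/2)`, or at most `2 l² - 2 l` if `l`
is a prime power; the number `l² - l + 1` of points of a projective plane is excluded -/
def Region (l K : ℕ) : Prop := l < K ∧ K + l ≠ l ^ 2 + 1 ∧
  (K + 2 < l ^ 2 + 2 * l ∨ (K + l - l ^ 2) ^ 2 ≤ l ^ 3 ∨ (IsPrimePow l ∧ K + 2 * l ≤ 2 * l ^ 2))

/-- the sizes `0, …, t + 1, t + l` -/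
def sizes (t l : ℕ) : Finset ℕ := insert (t + l) (Finset.range (t + 2))

/-- `k = a + g (l² + t)` and `L = a + g {0, …, t+1, t+l}`: the parameters of a `t`-fold extension of an affine plane
of order `l`, up to multiplication by `g` and addition of `a` -/
def Extension (l t k : ℕ) (L : Finset ℕ) : Prop :=
  ∃ a g, 1 ≤ g ∧ k = a + g * (l ^ 2 + t) ∧ L = (sizes t l).image fun i => a + g * i

/-- the order is a prime power and the plane is extended at most once, or it is three and the plane is extended
at most three times -/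
def Good (l t : ℕ) : Prop := IsPrimePow l ∧ (t ≤ 1 ∨ (l = 3 ∧ t ≤ 3))

theorem good_att {l t : ℕ} (h : Good l t) : Att (l ^ 2 + t) (SL t l) (t + 3) := by
  obtain ⟨h2, h3⟩ := h
  rcases h3 with h3 | ⟨rfl, h3⟩
  · have : t = 0 ∨ t = 1 := by omega
    rcases this with rfl | rfl
    · rw [SL_zero]
      exact affPos h2
    · rw [SL_one]
      exact invPos h2
  · interval_cases t
    · rw [SL_zero]
      exact affPos (q := 3) Nat.prime_three.isPrimePow
    · rw [SL_one]
      exact invPos (q := 3) Nat.prime_three.isPrimePow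
    · have e1 : SL 2 3 = {0, 1, 2, 3, 5} := by decide
      rw [e1]
      exact E11.attained
    · have e1 : SL 3 3 = {0, 1, 2, 3, 4, 6} := by decide
      rw [e1]
      exact E12.attained

/-- **Main result.** Let `l ≥ 3` and `K` in the region, let the last three steps of `l₁ < … < l_s < k` be `g`,
`g (l - 1)`, `g (K - l)`, and suppose that `(k, L)` does not come from a `t`-fold extension with `t ≥ 2` of an affine
plane of order 8 or 13. If `(k, L)` comes from a good extension, the growth is of order `n ^ s`; otherwise it is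
at most `C n ^ (s - e)` with `e > 0`. -/
theorem result (l K k : ℕ) (L : Finset ℕ) (hl : 3 ≤ l) (hR : Region l K) (h : LastSteps l K k L)
    (hX : ¬ ∃ t, ((l = 8 ∨ l = 13) ∧ 2 ≤ t) ∧ Extension l t k L) :
    ((∃ t, Good l t ∧ Extension l t k L) → Attained k L L.card) ∧
    ((¬ ∃ t, Good l t ∧ Extension l t k L) → PowerSaving k L L.card) := by
  have hT : TopA l K k L := h
  have hL := hT.sub hl hR.1
  have hk : 1 ≤ k := by
    obtain ⟨x, g, hg, h1, _⟩ := h
    have := Finset.mem_range.mp (hL h1)
    omega
  constructor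
  · rintro ⟨t, hgood, a, g, hg, rfl, rfl⟩
    have hinj : Function.Injective fun i => a + g * i := by
      intro i j hij
      have h1 : a + g * i = a + g * j := hij
      exact Nat.eq_of_mul_eq_mul_left (show 0 < g by omega) (by omega)
    rw [Finset.card_image_of_injective _ hinj]
    have e1 : (sizes t l).card = t + 3 := card_SL (by omega)
    rw [e1]
    exact (good_att hgood).scale a g hg (by nlinarith)
  · intro hn
    exact RB.sys hk hL (topA_neg hl hR k L hT hn hX)

end Pool.Agent.Results.MP_5cdc53_co.NearAffine
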